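import Mathlib

/-!
# Automata over a finite group, the groups `𝔾_Y` and `W_Y`, and the lamplighter group `Y ≀ ℤ`
-/

set_option autoImplicit false

namespace Pool.Agent.H95E17

universe u

variable (Y : Type u) [Group Y]

/-- The restricted wreath product `Y ≀ ℤ = (⊕_{n ∈ ℤ} Y) ⋊ ℤ`: the subgroup of the unrestricted
regular wreath product consisting of the pairs `(f, n)` with `f : ℤ → Y` of finite support. -/
def Lamp : Subgroup (RegularWreathProduct Y (Multiplicative ℤ)) where
  carrier := {x | (Function.mulSupport x.left).Finite}
  one_mem' := by simp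
  mul_mem' := by
    intro a b ha hb
    simp only [Set.mem_ofPred_eq, RegularWreathProduct.mul_left] at *
    refine (ha.union (hb.preimage (f := fun x => a.right⁻¹ * x)
      (mul_right_injective _).injOn)).subset ?_
    intro x hx
    by_contra hcon
    simp only [Set.mem_union, Function.mem_mulSupport, Set.mem_preimage, not_or, not_not] at hcon
    exact hx (by simp only [Pi.mul_apply]; rw [hcon.1, hcon.2, mul_one])
  inv_mem' := by
    intro a ha
    simp only [Set.mem_ofPred_eq, RegularWreathProduct.inv_left] at *
    refine (ha.preimage (f := fun x => a.right * x) (mul_right_injective _).injOn).subset ?_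
    intro x hx
    simpa [Function.mem_mulSupport] using hx

variable {Y}

/-- The map on words defined at the state `a_i` of the automaton `𝒜_Y`:
`a_i (j w) = (i j) a_{j⁻¹ i} (w)`. -/
def stateMap : Y → List Y → List Y
  | _, [] => []
  | i, j :: w => (i * j) :: stateMap (j⁻¹ * i) w

/-- The inverse of the map `stateMap i`. -/
def stateMapInv : Y → List Y → List Y
  | _, [] => []
  | i, j :: w => (i⁻¹ * j) :: stateMapInv (j⁻¹ * i * i) w

theorem stateMapInv_stateMap (w : List Y) : ∀ i : Y, stateMapInv i (stateMap i w) = w := by
  induction w with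
  | nil => intro i; rfl
  | cons j w ih =>
    intro i
    have h : (i * j)⁻¹ * i * i = j⁻¹ * i := by group
    simp only [stateMap, stateMapInv]
    rw [h, ih]
    simp

theorem stateMap_stateMapInv (w : List Y) : ∀ i : Y, stateMap i (stateMapInv i w) = w := by
  induction w with
  | nil => intro i; rfl
  | cons j w ih =>
    intro i
    have h : (i⁻¹ * j)⁻¹ * i = j⁻¹ * i * i := by group
    simp only [stateMap, stateMapInv]
    rw [h, ih]
    simp

/-- The bijection `a_i` of the set of words over `Y`. -/
def state (i : Y) : Equiv.Perm (List Y) where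
  toFun := stateMap i
  invFun := stateMapInv i
  left_inv w := stateMapInv_stateMap w i
  right_inv w := stateMap_stateMapInv w i

variable (Y)

/-- The group `𝔾_Y` generated by the bijections `a_i`, `i ∈ Y`, under composition. -/
def GY : Subgroup (Equiv.Perm (List Y)) := Subgroup.closure (Set.range (state (Y := Y)))

variable {Y}

/-- The map on words defined at the state `q` of an automaton with state set `Q` and alphabet `Y`,
with transition function `next`, whose output map at the state `p` is the left multiplication by
`out p`. -/
def run {Q : Type u} (next : Q → Y → Q) (out : Q → Y) : Q → List Y → List Y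
  | _, [] => []
  | q, x :: w => (out q * x) :: run next out (next q x) w

@[simp] theorem run_nil {Q : Type u} (next : Q → Y → Q) (out : Q → Y) (q : Q) :
    run next out q [] = [] := rfl

@[simp] theorem run_cons {Q : Type u} (next : Q → Y → Q) (out : Q → Y) (q : Q) (x : Y)
    (w : List Y) : run next out q (x :: w) = (out q * x) :: run next out (next q x) w := rfl

variable (Y)

/-- The finite state wreath power `W_Y` of the regular group `Y`: the group of the bijections of
the set of words which are defined at some state of some finite automaton over the alphabet `Y`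
all of whose output maps are left multiplications. -/
def WY : Subgroup (Equiv.Perm (List Y)) where
  carrier := {σ | ∃ (Q : Type u) (_ : Finite Q) (next : Q → Y → Q) (out : Q → Y) (q : Q),
    ∀ w : List Y, σ w = run next out q w}
  one_mem' := by
    refine ⟨PUnit, inferInstance, fun _ _ => PUnit.unit, fun _ => 1, PUnit.unit, ?_⟩
    intro w
    induction w with
    | nil => rfl
    | cons x w ih =>
      rw [run_cons, ← ih]
      simp
  mul_mem' := by
    rintro a b ⟨Q₁, h₁, n₁, o₁, q₁, e₁⟩ ⟨Q₂, h₂, n₂, o₂, q₂, e₂⟩
    refine ⟨Q₁ × Q₂, inferInstance, fun p x => (n₁ p.1 (o₂ p.2 * x), n₂ p.2 x),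
      fun p => o₁ p.1 * o₂ p.2, (q₁, q₂), ?_⟩
    intro w
    rw [Equiv.Perm.mul_apply, e₁, e₂]
    clear e₁ e₂
    induction w generalizing q₁ q₂ with
    | nil => rfl
    | cons x w ih =>
      simp only [run_cons]
      rw [ih, mul_assoc]
  inv_mem' := by
    rintro a ⟨Q₁, h₁, n₁, o₁, q₁, e₁⟩
    refine ⟨Q₁, h₁, fun p x => n₁ p ((o₁ p)⁻¹ * x), fun p => (o₁ p)⁻¹, q₁, ?_⟩
    intro w
    rw [Equiv.Perm.inv_eq_iff_eq, e₁]
    clear e₁
    induction w generalizing q₁ with
    | nil => rfl
    | cons x w ih =>
      simp only [run_cons]
      rw [← ih]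
      simp

variable {Y}

theorem length_run {Q : Type u} (next : Q → Y → Q) (out : Q → Y) (w : List Y) :
    ∀ q : Q, (run next out q w).length = w.length := by
  induction w with
  | nil => intro q; rfl
  | cons x w ih => intro q; simp [ih]

/-- Every map defined at a state of a finite automaton whose output maps are left multiplications is
a bijection, and so is an element of `W_Y`. -/
theorem exists_mem_WY {Q : Type u} [Finite Q] (next : Q → Y → Q) (out : Q → Y) (q : Q) :
    ∃ σ ∈ WY Y, ∀ w : List Y, σ w = run next out q w := by
  have h1 : ∀ (w : List Y) (p : Q), run (fun p x => next p ((out p)⁻¹ * x)) (fun p => (out p)⁻¹) p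
      (run next out p w) = w := by
    intro w
    induction w with
    | nil => intro p; rfl
    | cons x w ih => intro p; simp [ih]
  have h2 : ∀ (w : List Y) (p : Q), run next out p
      (run (fun p x => next p ((out p)⁻¹ * x)) (fun p => (out p)⁻¹) p w) = w := by
    intro w
    induction w with
    | nil => intro p; rfl
    | cons x w ih => intro p; simp [ih]
  exact ⟨⟨run next out q, run (fun p x => next p ((out p)⁻¹ * x)) (fun p => (out p)⁻¹) q,
    fun w => h1 w q, fun w => h2 w q⟩, ⟨Q, inferInstance, next, out, q, fun _ => rfl⟩, fun _ => rfl⟩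

/-- `𝔾_Y` is contained in `W_Y`. -/
theorem GY_le_WY (Y : Type u) [Group Y] [Finite Y] : GY Y ≤ WY Y := by
  rw [GY, Subgroup.closure_le]
  rintro _ ⟨i, rfl⟩
  refine ⟨Y, inferInstance, fun q x => x⁻¹ * q, fun q => q, i, ?_⟩
  intro w
  show stateMap i w = _
  induction w generalizing i with
  | nil => rfl
  | cons x w ih =>
    rw [stateMap, run_cons, ih]

theorem length_of_mem_WY {σ : Equiv.Perm (List Y)} (h : σ ∈ WY Y) (w : List Y) :
    (σ w).length = w.length := by
  obtain ⟨Q, _, next, out, q, e⟩ := h
  rw [e, length_run]

/-- Key fact: for a finite non-abelian group `Y`, the group `Y ≀ ℤ` does not embed in the group of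
the length-preserving bijections of the set of words over `Y`. -/
theorem no_embedding [Finite Y] (hY : ∃ x y : Y, x * y ≠ y * x)
    (ψ : Lamp Y →* Equiv.Perm (List Y)) (hψ : Function.Injective ψ)
    (hlen : ∀ g w, (ψ g w).length = w.length) : False := by
  classical
  obtain ⟨x, y, hxy⟩ := hY
  -- the element of the base group with the value `z` at the place `n`
  let e : Multiplicative ℤ → Y → Lamp Y := fun n z =>
    ⟨⟨Pi.mulSingle n z, 1⟩, by
      show (Function.mulSupport (Pi.mulSingle n z : Multiplicative ℤ → Y)).Finite
      refine (Set.finite_singleton n).subset ?_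
      intro k hk
      by_contra hne
      exact hk (Pi.mulSingle_eq_of_ne hne _)⟩
  let t : Multiplicative ℤ → Lamp Y := fun n =>
    ⟨⟨1, n⟩, by
      show (Function.mulSupport (1 : Multiplicative ℤ → Y)).Finite
      simp⟩
  have ht : ∀ n : ℕ, t (Multiplicative.ofAdd (n : ℤ)) = t (Multiplicative.ofAdd 1) ^ n := by
    intro n
    induction n with
    | zero =>
      rw [pow_zero]
      rfl
    | succ n ih =>
      rw [pow_succ, ← ih]
      apply Subtype.ext
      apply RegularWreathProduct.ext
      · funext k
        simp [t]
      · simp [t, ofAdd_add]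
  -- conjugation by `t n` moves the place `1` to the place `n`
  have hconj : ∀ (n : Multiplicative ℤ) (z : Y), t n * e 1 z = e n z * t n := by
    intro n z
    apply Subtype.ext
    apply RegularWreathProduct.ext
    · funext k
      simp only [t, e, Subgroup.coe_mul, RegularWreathProduct.mul_left, Pi.mul_apply,
        Pi.one_apply, one_mul, mul_one]
      by_cases hk : k = n
      · subst hk
        simp
      · rw [Pi.mulSingle_eq_of_ne hk, Pi.mulSingle_eq_of_ne]
        intro h
        exact hk (by rw [← mul_inv_cancel_left n k, h, mul_one])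
    · simp [t, e]
  -- elements at different places commute
  have hcomm : ∀ (n : Multiplicative ℤ) (a b : Y), n ≠ 1 → e 1 a * e n b = e n b * e 1 a := by
    intro n a b hn
    apply Subtype.ext
    apply RegularWreathProduct.ext
    · funext k
      simp only [e, Subgroup.coe_mul, RegularWreathProduct.mul_left, Pi.mul_apply, inv_one,
        one_mul]
      by_cases hk : k = n
      · subst hk
        rw [Pi.mulSingle_eq_of_ne hn]
        simp
      · rw [Pi.mulSingle_eq_of_ne hk]
        simp
    · simp [e]
  have hne : e 1 x * e 1 y ≠ e 1 y * e 1 x := by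
    intro h
    apply hxy
    have h1 := congrArg (fun g : Lamp Y => (g : RegularWreathProduct Y (Multiplicative ℤ)).left 1) h
    simpa [e] using h1
  have hne2 : ψ (e 1 x) * ψ (e 1 y) ≠ ψ (e 1 y) * ψ (e 1 x) := by
    rw [← map_mul, ← map_mul]
    exact fun h => hne (hψ h)
  obtain ⟨w, hw⟩ : ∃ w, (ψ (e 1 x) * ψ (e 1 y)) w ≠ (ψ (e 1 y) * ψ (e 1 x)) w := by
    by_contra hcon
    push Not at hcon
    exact hne2 (Equiv.ext hcon)
  apply hw
  -- some positive power of `ψ t` is the identity on the words of the length of `w`
  have hfin : Finite {v : List Y // v.length = w.length} := List.finite_length_eq Y w.length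
  let τ : Equiv.Perm (List Y) := ψ (t (Multiplicative.ofAdd 1))
  have hτ : ∀ v : List Y, (τ v).length = w.length ↔ v.length = w.length := fun v => by
    rw [hlen]
  let π : Equiv.Perm {v : List Y // v.length = w.length} := τ.subtypePerm hτ
  obtain ⟨N, hN, hπ⟩ := (isOfFinOrder_of_finite π).exists_pow_eq_one
  have hfix : ∀ v : List Y, v.length = w.length → (τ ^ N) v = v := by
    intro v hv
    have h1 := congrArg (fun p : Equiv.Perm {v : List Y // v.length = w.length} =>
      (p ⟨v, hv⟩ : List Y)) hπ
    simpa [π, Equiv.Perm.subtypePerm_pow] using h1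
  -- hence the values of `e 1 y` and of `e N y` agree on these words
  set n : Multiplicative ℤ := Multiplicative.ofAdd (N : ℤ) with hn
  have hn1 : n ≠ 1 := by
    intro h
    have : (N : ℤ) = 0 := h
    omega
  have hτn : ψ (t n) = τ ^ N := by rw [hn, ht, map_pow]
  have hsame : ∀ v : List Y, v.length = w.length → ψ (e n y) v = ψ (e 1 y) v := by
    intro v hv
    have h1 := congrArg (fun p : Equiv.Perm (List Y) => p v) (congrArg ψ (hconj n y))
    simp only [map_mul, Equiv.Perm.mul_apply, hτn] at h1
    rw [hfix v hv, hfix _ (by rw [hlen, hv])] at h1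
    exact h1.symm
  have h2 := congrArg (fun p : Equiv.Perm (List Y) => p w) (congrArg ψ (hcomm n x y hn1))
  simp only [map_mul, Equiv.Perm.mul_apply] at h2
  rw [Equiv.Perm.mul_apply, Equiv.Perm.mul_apply, ← hsame w rfl, h2, hsame _ (hlen _ _)]

end Pool.Agent.H95E17
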